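import Mathlib
import Pool.Agent.H13K.Main
import Pool.Agent.H13K.Irr
import Pool.Agent.H13K.Join
import Pool.Agent.H11B.LowMain

/-! The Bateman-Horn formula for almost all systems of polynomials at all scales up to the height.

(1) For all but a proportion `(log H)^(-A)` of the systems of `m` polynomials `f_i` of degrees `d_i ≥ 1` with coefficients in
`[-H, H]`: if no prime divides all the values of `∏ f_i`, then the `f_i` are irreducible, and the number of the `n` in `(u, v]`
for which all `|f_i(n)|` are primes is `C ∑ ∏ 1 / log |f_i(n)|` up to a relative error `(log H)^(-A)`, simultaneously in all the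
windows `(u, v]` with `(log H)^B ≤ v ≤ H / (log H)^B` and `v - u ≥ v / (log H)^A`.
(2) For all but a proportion `ε` the same holds with a relative error `ε` for all the segments `(0, N]` with
`(log H)^(m + δ) ≤ N ≤ H / (log H)^B`; the product of Bateman and Horn may be cut at any `z ≥ z₀`, `z₀` independent of `H`.

Method of (1): the correlations `∑_a U(f_a(k)) V(f_a(k'))` of one random polynomial `f_a`, where `U` is the indicator function of
the primes minus a sieve model, are small on average over the pairs `(k, k')` (kernel theorem, `Pool/Agent/H13K/StmK.lean`): on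
the minor arcs by an inverse theorem for the number of the pairs `(k, k')` for which `‖α k^l - β k'^l‖` is small for all
`l ≤ d` (starting files), on the major arcs by Plancherel's formula on rays in the space of the coefficients, van der Corput's
estimates for `∑ f(k)^{it}` and the estimates of Vinogradov and Korobov for prime numbers twisted by `n^{it}` and characters
(`Pool/Agent/H13V`). The kernels of the `f_i` are then tensorised, and the sieve model is computed by the fundamental lemma and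
second moments (`Pool/Agent/H13K/StmS.lean`). Method of (2): Siegel-Walfisz and second moments (`Pool/Agent/H11B`, by helper11),
joined with (1) in `Pool/Agent/H13K/Join.lean`. -/

set_option autoImplicit false

namespace Pool.Agent.Results.MP_51e72e_nt.AllScales

open Finset
open scoped Polynomial

/-- the arrays `(a i l)`, `i < m`, `l ≤ d i`, of integers in `[-H, H]` -/
noncomputable def arrays {m : ℕ} (d : Fin m → ℕ) (H : ℕ) : Finset (∀ i : Fin m, Fin (d i + 1) → ℤ) :=
  Fintype.piFinset fun _ => Fintype.piFinset fun _ => Icc (-(H : ℤ)) H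

/-- the polynomials `f_i = ∑_{l ≤ d i} a_il x^l` -/
noncomputable def poly {m : ℕ} {d : Fin m → ℕ} (a : ∀ i : Fin m, Fin (d i + 1) → ℤ) (i : Fin m) : ℤ[X] :=
  ∑ l : Fin (d i + 1), Polynomial.C (a i l) * Polynomial.X ^ (l : ℕ)

/-- the number of the `n`, `1 ≤ n ≤ p`, for which `p` divides `∏ f_i(n)` -/
def omega {m : ℕ} (f : Fin m → ℤ[X]) (p : ℕ) : ℕ :=
  #((Icc 1 p).filter fun n : ℕ => (p : ℤ) ∣ ∏ i, (f i).eval (n : ℤ))

/-- the product of Bateman and Horn over the primes `p ≤ z` -/
noncomputable def bhConst {m : ℕ} (f : Fin m → ℤ[X]) (z : ℕ) : ℝ :=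
  ∏ p ∈ (Icc 1 z).filter Nat.Prime, (1 - (omega f p : ℝ) / p) / (1 - 1 / (p : ℝ)) ^ m

/-- the number of the `n`, `u < n ≤ v`, for which all `|f_i(n)|` are primes -/
def primePoints {m : ℕ} (f : Fin m → ℤ[X]) (u v : ℕ) : ℕ :=
  #((Ioc u v).filter fun n : ℕ => ∀ i, ((f i).eval (n : ℤ)).natAbs.Prime)

/-- the sum of `∏ 1 / log |f_i(n)|` over the `n`, `u < n ≤ v`, for which all `|f_i(n)|` are at least `2` -/
noncomputable def li {m : ℕ} (f : Fin m → ℤ[X]) (u v : ℕ) : ℝ :=
  ∑ n ∈ (Ioc u v).filter (fun n : ℕ => ∀ i, 2 ≤ |(f i).eval (n : ℤ)|),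
    ∏ i, 1 / Real.log |(((f i).eval (n : ℤ) : ℤ) : ℝ)|

open Pool.Agent.H13K (bx Fv om Cz Wf lg pr)
open Pool.Agent.H13K.LOWL (po eval_po natDegree_po)

lemma poly_eq {m : ℕ} {d : Fin m → ℕ} (a : ∀ i : Fin m, Fin (d i + 1) → ℤ) (i : Fin m) : poly a i = po (a i) := rfl

lemma eval_poly {m : ℕ} {d : Fin m → ℕ} (a : ∀ i : Fin m, Fin (d i + 1) → ℤ) (i : Fin m) (n : ℤ) :
    (poly a i).eval n = Fv (a i) n := eval_po (a i) n

lemma omega_eq {m : ℕ} {d : Fin m → ℕ} (a : ∀ i : Fin m, Fin (d i + 1) → ℤ) (p : ℕ) (hp : 1 ≤ p) :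
    omega (poly a) p = om p a := by
  unfold omega om
  simp only [eval_poly]
  have h0 : ((p : ℤ) ∣ ∏ i, Fv (a i) (p : ℤ)) ↔ ((p : ℤ) ∣ ∏ i, Fv (a i) (0 : ℤ)) := by
    refine dvd_iff_dvd_of_dvd_sub ?_
    have hprod : ∀ s : Finset (Fin m), (p : ℤ) ∣ ∏ i ∈ s, Fv (a i) (p : ℤ) - ∏ i ∈ s, Fv (a i) (0 : ℤ) := by
      classical
      intro s
      induction s using Finset.induction_on with
      | empty => simp
      | insert j s hj ih =>
        rw [prod_insert hj, prod_insert hj]
        have h1 := Pool.Agent.H13K.CRT.Fv_congr (a j) p (p : ℤ) 0 (by simp)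
        have e : Fv (a j) (p : ℤ) * ∏ i ∈ s, Fv (a i) (p : ℤ) - Fv (a j) 0 * ∏ i ∈ s, Fv (a i) (0 : ℤ) =
            (Fv (a j) (p : ℤ) - Fv (a j) 0) * ∏ i ∈ s, Fv (a i) (p : ℤ) +
            Fv (a j) 0 * (∏ i ∈ s, Fv (a i) (p : ℤ) - ∏ i ∈ s, Fv (a i) (0 : ℤ)) := by ring
        rw [e]
        exact dvd_add (h1.mul_right _) (ih.mul_left _)
    exact hprod univ
  refine card_nbij' (fun n => if n = p then 0 else n) (fun n => if n = 0 then p else n) ?_ ?_ ?_ ?_
  · intro n hn
    rw [mem_coe, mem_filter, mem_Icc] at hn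
    rw [mem_coe, mem_filter, mem_range]
    dsimp only
    split_ifs with h
    · subst h
      exact ⟨by omega, by simpa using h0.1 hn.2⟩
    · exact ⟨by omega, hn.2⟩
  · intro n hn
    rw [mem_coe, mem_filter, mem_range] at hn
    rw [mem_coe, mem_filter, mem_Icc]
    dsimp only
    split_ifs with h
    · subst h
      exact ⟨by omega, h0.2 (by simpa using hn.2)⟩
    · exact ⟨by omega, hn.2⟩
  · intro n hn
    rw [mem_coe, mem_filter, mem_Icc] at hn
    dsimp only
    by_cases h : n = p
    · rw [if_pos h, if_pos rfl, h]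
    · rw [if_neg h, if_neg (by omega)]
  · intro n hn
    rw [mem_coe, mem_filter, mem_range] at hn
    dsimp only
    by_cases h : n = 0
    · rw [if_pos h, if_pos rfl, h]
    · rw [if_neg h, if_neg (by omega)]

lemma const_eq {m : ℕ} {d : Fin m → ℕ} (a : ∀ i : Fin m, Fin (d i + 1) → ℤ) (z : ℕ) :
    bhConst (poly a) z = Cz z a := by
  unfold bhConst Cz Pool.Agent.H373R2.T7.pz
  refine prod_congr rfl fun p hp => ?_
  rw [omega_eq a p (mem_filter.1 hp).2.one_le]

lemma prime_eq {m : ℕ} {d : Fin m → ℕ} (a : ∀ i : Fin m, Fin (d i + 1) → ℤ) (u v : ℕ) :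
    (primePoints (poly a) u v : ℝ) = Pool.Agent.H13K.Fin.PW a u v := by
  unfold primePoints Pool.Agent.H13K.Fin.PW
  rw [card_filter]
  push_cast
  refine sum_congr rfl fun n _ => ?_
  simp only [eval_poly]
  unfold pr
  split_ifs with h
  · exact (prod_eq_one fun i _ => if_pos (h i)).symm
  · push Not at h
    obtain ⟨i, hi⟩ := h
    exact (prod_eq_zero (mem_univ i) (if_neg hi)).symm

lemma li_eq {m : ℕ} {d : Fin m → ℕ} (a : ∀ i : Fin m, Fin (d i + 1) → ℤ) (u v : ℕ) :
    li (poly a) u v = Pool.Agent.H13K.Fin.LW a u v := by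
  unfold li Pool.Agent.H13K.Fin.LW
  rw [sum_filter]
  refine sum_congr rfl fun n _ => ?_
  simp only [eval_poly]
  unfold Wf lg
  split_ifs with h
  · exact prod_congr rfl fun i _ => (if_pos (h i)).symm
  · push Not at h
    obtain ⟨i, hi⟩ := h
    exact (prod_eq_zero (mem_univ i) (if_neg (not_le.2 hi))).symm

/-- **Theorem.** -/
theorem result (m : ℕ) (hm : 1 ≤ m) (d : Fin m → ℕ) (hd : ∀ i, 1 ≤ d i) (A : ℕ) (δ ε : ℝ) (hδ : 0 < δ) (hε : 0 < ε) :
    ∃ B z₀ H₀ : ℕ, ∀ H ≥ H₀, ∃ Bad ⊆ arrays d H, ∃ Bad' ⊆ arrays d H,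
    (#Bad : ℝ) ≤ #(arrays d H) / Real.log H ^ A ∧ (#Bad' : ℝ) ≤ ε * #(arrays d H) ∧
    ∀ a ∈ arrays d H, a ∉ Bad →
      (∀ i, (poly a i).natDegree = d i) ∧ (∀ i j, i ≠ j → poly a i ≠ poly a j ∧ poly a i ≠ - poly a j) ∧
      ((∀ p : ℕ, p.Prime → ∃ n : ℤ, ¬ (p : ℤ) ∣ ∏ i, (poly a i).eval n) →
        (∀ i, Irreducible (poly a i)) ∧
        (∀ z : ℕ, Real.log H ^ B ≤ z → z ^ 4 ≤ H → 0 < bhConst (poly a) z ∧
          ∀ u v : ℕ, Real.log H ^ B ≤ v → v * Real.log H ^ B ≤ H → v ≤ ((v : ℝ) - u) * Real.log H ^ A →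
            |(primePoints (poly a) u v : ℝ) - bhConst (poly a) z * li (poly a) u v| ≤
              bhConst (poly a) z * li (poly a) u v / Real.log H ^ A) ∧
        (a ∉ Bad' → ∀ z : ℕ, z₀ ≤ z → z ^ 4 ≤ H → 0 < bhConst (poly a) z ∧
          ∀ N : ℕ, Real.log H ^ (m + δ) ≤ N → N * Real.log H ^ B ≤ H →
            |(primePoints (poly a) 0 N : ℝ) - bhConst (poly a) z * li (poly a) 0 N| ≤
              ε * (bhConst (poly a) z * li (poly a) 0 N))) := by
  classical
  obtain ⟨B, H1, hcore⟩ := Pool.Agent.H13K.Fin.core Pool.Agent.H13K.Main.all Pool.Agent.H13K.Main.py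
    Pool.Agent.H13K.TV.t (Pool.Agent.H13K.LOWC.t Pool.Agent.H13K.VZ.t) m d hd (A + 1)
  obtain ⟨z₀, H3, hjoin⟩ := Pool.Agent.H13K.Join.join
    (fun m dd hm hdd A δ ε hδ hε => Pool.Agent.H11B.lowT m dd hm hdd A δ ε hδ hε) m d hm hd (A + 1) B (by omega) δ ε hδ hε
  have hlog : Filter.Tendsto (fun H : ℕ => Real.log H) Filter.atTop Filter.atTop :=
    Real.tendsto_log_atTop.comp tendsto_natCast_atTop_atTop
  -- room for one window, and for the systems with equal polynomials
  have hlil : Filter.Tendsto (fun H : ℕ => Real.log H ^ (8 * (B + A + 2)) / (H : ℝ)) Filter.atTop (nhds 0) := by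
    have h1 : (fun x : ℝ => Real.log x ^ (8 * (B + A + 2))) =o[Filter.atTop] fun x : ℝ => x := by
      have := isLittleO_log_rpow_rpow_atTop (s := 1) (8 * (B + A + 2) : ℕ) one_pos
      refine this.congr (fun x => ?_) (fun x => Real.rpow_one x)
      exact Real.rpow_natCast _ _
    exact h1.tendsto_div_nhds_zero.comp tendsto_natCast_atTop_atTop
  have hev := (hlil.eventually (ge_mem_nhds (show (0 : ℝ) < 1 by norm_num))).and
    (hlog.eventually_ge_atTop (20 * (∑ i, (d i : ℝ)) + 4 * m ^ 2 + 10))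
  obtain ⟨H2, hH2⟩ := Filter.eventually_atTop.1 hev
  refine ⟨B, z₀, max (max H1 H3) (max H2 2), fun H hH => ?_⟩
  obtain ⟨Bad1, hB1, hB2, hB3⟩ := hcore H (((le_max_left _ _).trans (le_max_left _ _)).trans hH)
  obtain ⟨Bad3, hB31, hB32, hB33⟩ := hjoin H (((le_max_right _ _).trans (le_max_left _ _)).trans hH)
  obtain ⟨hHl, hL⟩ := hH2 H (((le_max_left _ _).trans (le_max_right _ _)).trans hH)
  have hH2' : 2 ≤ H := ((le_max_right _ _).trans (le_max_right _ _)).trans hH
  have hHr : (2 : ℝ) ≤ H := by exact_mod_cast hH2'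
  rw [div_le_one (by linarith)] at hHl
  set L := Real.log H with hLd
  have hsum0 : 0 ≤ (∑ i, (d i : ℝ)) := sum_nonneg fun _ _ => Nat.cast_nonneg _
  have hm0 : (0 : ℝ) ≤ 4 * (m : ℝ) ^ 2 := by positivity
  have hL10 : 10 ≤ L := by linarith
  have hL1 : 1 ≤ L := by linarith
  have hL0 : 0 < L := by linarith
  set Bad2 := (arrays d H).filter (fun a => ∃ i j, i ≠ j ∧ (po (a i) = po (a j) ∨ po (a i) = - po (a j))) with hBad2
  refine ⟨Bad1 ∪ Bad2, union_subset hB1 (filter_subset _ _), Bad3, hB31, ?_, hB32, ?_⟩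
  · have h1 : ((Bad1 ∪ Bad2).card : ℝ) ≤ Bad1.card + Bad2.card := by exact_mod_cast card_union_le _ _
    have h2 : (Bad2.card : ℝ) ≤ (arrays d H).card / L ^ A / 2 := by
      have h3 := Pool.Agent.H13K.Irr.eq_count2 d H
      have h4 : (2 * (H : ℝ) + 1) * Bad2.card ≤ 2 * m ^ 2 * (arrays d H).card := by exact_mod_cast h3
      have h5 : L ^ (A + 1) ≤ H := (pow_le_pow_right₀ hL1 (by omega)).trans hHl
      have h6 : (H : ℝ) * Bad2.card ≤ m ^ 2 * (arrays d H).card := by
        have : (0 : ℝ) ≤ Bad2.card := Nat.cast_nonneg _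
        linarith
      have h7 : L ^ (A + 1) * Bad2.card ≤ m ^ 2 * (arrays d H).card :=
        (mul_le_mul_of_nonneg_right h5 (Nat.cast_nonneg _)).trans h6
      rw [div_div, le_div_iff₀ (by positivity)]
      have h8 : L * (Bad2.card * (L ^ A * 2)) ≤ L * (arrays d H).card := by
        calc L * (Bad2.card * (L ^ A * 2)) = 2 * (L ^ (A + 1) * Bad2.card) := by ring
          _ ≤ 2 * (m ^ 2 * (arrays d H).card) := by linarith
          _ ≤ L * (arrays d H).card := by
              have : (0 : ℝ) ≤ (arrays d H).card := Nat.cast_nonneg _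
              nlinarith
      exact le_of_mul_le_mul_left h8 hL0
    have h3 : (Bad1.card : ℝ) ≤ (arrays d H).card / L ^ A / 2 := by
      refine hB2.trans ?_
      change ((arrays d H).card : ℝ) / L ^ (A + 1) ≤ _
      rw [pow_succ, ← div_div]
      refine div_le_div_of_nonneg_left (by positivity) (by norm_num) (by linarith)
    linarith
  · intro a ha hab
    rw [mem_union, not_or] at hab
    have hgood : Pool.Agent.H13K.Join.Good (A + 1) B H a := hB3 a ha hab.1
    obtain ⟨hlead, hrest⟩ := hB3 a ha hab.1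
    have hdeg : ∀ i, (poly a i).natDegree = d i := fun i => natDegree_po (a i) (hlead i)
    refine ⟨hdeg, ?_, ?_⟩
    · intro i j hij
      constructor
      · intro h
        exact hab.2 (mem_filter.2 ⟨ha, i, j, hij, Or.inl h⟩)
      · intro h
        exact hab.2 (mem_filter.2 ⟨ha, i, j, hij, Or.inr h⟩)
    · intro hadm
      have hom : ∀ p : ℕ, p.Prime → om p a ≠ p := by
        intro p hp h
        obtain ⟨n, hn⟩ := hadm p hp
        have hpp : 0 < p := hp.pos
        have hall : ∀ k ∈ range p, (p : ℤ) ∣ ∏ i, Fv (a i) (k : ℤ) := by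
          have h1 : ((range p).filter (fun n : ℕ => (p : ℤ) ∣ ∏ i, Fv (a i) (n : ℤ))) = range p :=
            eq_of_subset_of_card_le (filter_subset _ _) (by rw [card_range]; exact h.ge)
          intro k hk
          rw [← h1] at hk
          exact (mem_filter.1 hk).2
        apply hn
        have hp0 : (0 : ℤ) < p := by exact_mod_cast hpp
        set k := (n % p).toNat with hk
        have h2 := Int.emod_nonneg n hp0.ne'
        have h3 := Int.emod_lt_of_pos n hp0
        have hkc : (k : ℤ) = n % p := Int.toNat_of_nonneg h2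
        have hkr : k ∈ range p := by
          rw [mem_range]
          omega
        have h4 := hall k hkr
        have hpr : Prime (p : ℤ) := Nat.prime_iff_prime_int.1 hp
        obtain ⟨i, hi, hd'⟩ := (hpr.dvd_finsetProd_iff _).1 h4
        refine (hpr.dvd_finsetProd_iff _).2 ⟨i, hi, ?_⟩
        rw [eval_poly]
        have h5 : (p : ℤ) ∣ n - (k : ℤ) := by
          rw [hkc]
          exact Int.dvd_self_sub_emod
        have h6 := Pool.Agent.H13K.CRT.Fv_congr (a i) p n k h5
        exact (dvd_iff_dvd_of_dvd_sub h6).2 hd'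
      have hwin := hrest hom
      have hmain : ∀ z : ℕ, L ^ B ≤ z → z ^ 4 ≤ H → 0 < bhConst (poly a) z ∧
          ∀ u v : ℕ, L ^ B ≤ v → v * L ^ B ≤ H → v ≤ ((v : ℝ) - u) * L ^ A →
            L ≤ bhConst (poly a) z * li (poly a) u v ∧
            |(primePoints (poly a) u v : ℝ) - bhConst (poly a) z * li (poly a) u v| ≤
              bhConst (poly a) z * li (poly a) u v / L ^ (A + 1) := by
        intro z hz hz4
        obtain ⟨hc, hw⟩ := hwin z hz hz4
        rw [const_eq]
        refine ⟨hc, fun u v hv1 hv2 hv3 => ?_⟩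
        rw [prime_eq, li_eq]
        have hv0 : (0 : ℝ) ≤ v := Nat.cast_nonneg _
        have hd0 : 0 ≤ (v : ℝ) - u := by
          by_contra hcon
          push Not at hcon
          have : ((v : ℝ) - u) * L ^ A ≤ 0 := mul_nonpos_of_nonpos_of_nonneg hcon.le (by positivity)
          have hLB : 0 < L ^ B := by positivity
          linarith
        have h1 := hw u v hv1 hv2 (hv3.trans (mul_le_mul_of_nonneg_left (pow_le_pow_right₀ hL1 (by omega)) hd0))
        exact ⟨h1.1, h1.2.2⟩
      refine ⟨?_, ?_, ?_⟩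
      · -- irreducibility
        intro i
        set z := ⌈L ^ B⌉₊ with hz
        have hLB1 : 1 ≤ L ^ B := one_le_pow₀ hL1
        have hz1 : L ^ B ≤ z := Nat.le_ceil _
        have hz2 : (z : ℝ) ≤ L ^ (B + 1) := by
          have h1 := Nat.ceil_lt_add_one (show 0 ≤ L ^ B by positivity)
          rw [← hz] at h1
          rw [pow_succ]
          nlinarith
        have hz4 : z ^ 4 ≤ H := by
          have h1 : (z : ℝ) ^ 4 ≤ H := by
            calc (z : ℝ) ^ 4 ≤ (L ^ (B + 1)) ^ 4 := pow_le_pow_left₀ (Nat.cast_nonneg _) hz2 4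
              _ = L ^ (4 * (B + 1)) := by rw [← pow_mul]; ring_nf
              _ ≤ L ^ (8 * (B + A + 2)) := pow_le_pow_right₀ hL1 (by omega)
              _ ≤ H := hHl
          exact_mod_cast h1
        have hzB : (z : ℝ) * L ^ B ≤ H := by
          calc (z : ℝ) * L ^ B ≤ L ^ (B + 1) * L ^ B := mul_le_mul_of_nonneg_right hz2 (by positivity)
            _ = L ^ (2 * B + 1) := by ring
            _ ≤ L ^ (8 * (B + A + 2)) := pow_le_pow_right₀ hL1 (by omega)
            _ ≤ H := hHl
        have hzA : (z : ℝ) ≤ ((z : ℝ) - (0 : ℕ)) * L ^ A := by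
          rw [Nat.cast_zero, sub_zero]
          exact le_mul_of_one_le_right (Nat.cast_nonneg _) (one_le_pow₀ hL1)
        obtain ⟨_, hw⟩ := hmain z hz1 hz4
        obtain ⟨h1, h2⟩ := hw 0 z hz1 hzB hzA
        set X := bhConst (poly a) z * li (poly a) 0 z with hX
        have h3 : X / L ^ (A + 1) ≤ X / 2 := by
          refine div_le_div_of_nonneg_left (by linarith) (by norm_num) ?_
          calc (2 : ℝ) ≤ L := by linarith
            _ ≤ L ^ (A + 1) := le_self_pow₀ hL1 (by omega)
        have h4 : L / 2 ≤ (primePoints (poly a) 0 z : ℝ) := by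
          have := (abs_le.1 h2).1
          linarith
        have h5 : 4 * (d i : ℝ) < (primePoints (poly a) 0 z : ℝ) := by
          have h6 : (d i : ℝ) ≤ ∑ i, (d i : ℝ) := single_le_sum (f := fun i => (d i : ℝ)) (fun _ _ => Nat.cast_nonneg _) (mem_univ i)
          have h7 : (0 : ℝ) ≤ d i := Nat.cast_nonneg _
          linarith
        have h6 : 4 * d i < primePoints (poly a) 0 z := by exact_mod_cast h5
        refine Pool.Agent.H13K.Irr.irr (hd i) (poly a i) (hdeg i) ?_ _ h6 ?_
        · intro p hp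
          obtain ⟨n, hn⟩ := hadm p hp
          exact ⟨n, fun h => hn (h.trans (dvd_prod_of_mem _ (mem_univ i)))⟩
        · intro n hn
          exact (mem_filter.1 hn).2 i
      · intro z hz hz4
        obtain ⟨hc, hw⟩ := hmain z hz hz4
        refine ⟨hc, fun u v hv1 hv2 hv3 => ?_⟩
        obtain ⟨h1, h2⟩ := hw u v hv1 hv2 hv3
        refine h2.trans ?_
        exact div_le_div_of_nonneg_left (by linarith) (by positivity) (pow_le_pow_right₀ hL1 (by omega))
      · intro hab3 z hz hz4
        obtain ⟨hc, hN⟩ := hB33 a ha hab3 hgood hom z hz hz4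
        rw [const_eq]
        refine ⟨hc, fun N hN1 hN2 => ?_⟩
        rw [prime_eq, li_eq]
        exact hN N hN1 hN2

end Pool.Agent.Results.MP_51e72e_nt.AllScales
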