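import Mathlib
import Pool.Agent.H11A.PB3
import Pool.Agent.H11P.SWc

/-! The Bateman-Horn formula for almost all systems of polynomials, simultaneously in all windows.

For random systems `f_i = P_i + ∑_{l ≤ d} a_il x^l`, `|a_il| ≤ H`, outside of an exceptional set of
arrays `a` of density at most `ε`, the number of the `n` in `(J, J + L]` for which all `|f_i(n)|` are
primes is asymptotic to the number predicted by Bateman and Horn, in all the windows of length
`L ≥ (log H)^(k + δ)` at once. The proof is by the moments of order `2 r ≤ d + 1` of the number of the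
prime points minus the number of the sifted points (Siegel-Walfisz and the fundamental lemma), the
second moment of the number of the sifted points, and exponential moments of the logarithm of the
local factors. -/

set_option autoImplicit false

namespace Pool.Agent.Results.MP_51e72e_nt.AllWindows

open Finset
open Pool.Agent.H11P.Law (value bhConst)

/-- the arrays `(a i l)`, `i < k`, `l ≤ d`, of integers in `[-H, H]` -/
noncomputable def arrays (k d H : ℕ) : Finset (Fin k → Fin (d + 1) → ℤ) :=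
  Fintype.piFinset fun _ => Fintype.piFinset fun _ => Icc (-(H : ℤ)) H

/-- the `n` with `J < n ≤ J + L` for which all `|f_i(n)|` are primes, `f_i = P_i + ∑ a_il x^l` -/
def points {k d : ℕ} (P : Fin k → Polynomial ℤ) (a : Fin k → Fin (d + 1) → ℤ) (J L : ℕ) : Finset ℕ :=
  (Ioc J (J + L)).filter fun n => ∀ i, (value (P i) (a i) n).natAbs.Prime

theorem result (k d e A : ℕ) (hk : 1 ≤ k) (hd : 2 ≤ d) (δ θ ε : ℝ) (hδ : 0 < δ) (hδ1 : δ ≤ 1)
    (hθ0 : 0 ≤ θ) (hθ : θ < δ * ((d + 1) / 2 : ℕ)) (hε : 0 < ε) :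
    ∃ z₀ H₀ : ℕ, ∀ H ≥ H₀,
      ∀ P : Fin k → Polynomial ℤ, (∀ i, (P i).natDegree ≤ e) →
      (∀ i j, |((P i).coeff j : ℝ)| ≤ H * Real.log H ^ A) →
      ∃ Bad ⊆ arrays k d H, (#Bad : ℝ) ≤ ε * #(arrays k d H) ∧
      ∀ a ∈ arrays k d H, a ∉ Bad →
        (∀ p : ℕ, p.Prime → ∃ n : ℕ, ∀ i, ¬ (p : ℤ) ∣ value (P i) (a i) n) →
        ∀ z : ℕ, z₀ ≤ z → 8 * (z : ℝ) ≤ Real.log H →
        0 < bhConst P z a ∧
        ∀ J L : ℕ, Real.log H ^ (k + δ) ≤ L → ((J + L : ℕ) : ℝ) ≤ Real.log H ^ A →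
          ((J + L : ℕ) : ℝ) ≤ L * Real.log H ^ θ →
          |(#(points P a J L) : ℝ) - bhConst P z a * L / Real.log H ^ k| ≤
            ε * (bhConst P z a * L / Real.log H ^ k) := by
  obtain ⟨z₀, h0⟩ := Pool.Agent.H11A.allw2 Pool.Agent.H11P.swU k d e A hk hd δ θ (min ε 1) hδ hδ1 hθ0 hθ
    (lt_min hε one_pos) (min_le_right _ _)
  obtain ⟨H₀, h1⟩ := Filter.eventually_atTop.1 h0
  obtain ⟨H₁, h2⟩ := Filter.eventually_atTop.1 (Pool.Agent.H11P.ev_log 1)
  refine ⟨z₀, max H₀ H₁, fun H hH P hPe hPc => ?_⟩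
  obtain ⟨Bad, hB1, hB2, hB3⟩ := h1 H ((le_max_left _ _).trans hH) P hPe hPc
  have hℓ := h2 H ((le_max_right _ _).trans hH)
  have hN0 : (0 : ℝ) ≤ #(arrays k d H) := Nat.cast_nonneg _
  refine ⟨Bad, hB1, hB2.trans (mul_le_mul_of_nonneg_right (min_le_left _ _) hN0), fun a ha hab hadm z hz hz8 => ?_⟩
  have hb : 0 < bhConst P z a := Pool.Agent.H11A.bh_pos P e hPe (by omega) a hadm z
  refine ⟨hb, fun J L hL hJL hθL => ?_⟩
  have h3 := hB3 a ha hab hadm z hz (by
    unfold Pool.Agent.H11A.Yh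
    apply Nat.le_floor
    linarith) J L hL hJL hθL
  have h4 : Pool.Agent.H11A.pts P (Ioc J (J + L)) a = #(points P a J L) := rfl
  rw [h4] at h3
  have hℓk : 0 < Real.log H ^ k := by positivity
  have h5 : (#(points P a J L) : ℝ) - bhConst P z a * L / Real.log H ^ k =
      (Real.log H ^ k * #(points P a J L) - L * bhConst P z a) / Real.log H ^ k := by
    field_simp
  rw [h5, abs_div, abs_of_pos hℓk, div_le_iff₀ hℓk]
  refine h3.trans ?_
  have h6 : ε * (bhConst P z a * L / Real.log H ^ k) * Real.log H ^ k = ε * (L * bhConst P z a) := by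
    field_simp
  rw [h6]
  exact mul_le_mul_of_nonneg_right (min_le_left _ _) (mul_nonneg (Nat.cast_nonneg _) hb.le)

end Pool.Agent.Results.MP_51e72e_nt.AllWindows
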