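import Mathlib
import Pool.Agent.Y827.HD.Her
import Pool.Agent.H37EF.Fin

/-!
# Quantitative Hypothesis H for families of linear polynomials at EVERY scale

For a finite set `F` of linear irreducible polynomials over the integers, no two of them equal up to the sign,
the Euler product `C_F` converges, and it is positive if no prime divides all the values of the product of the
members of `F`.

Let `k ≥ 1` and `ε > 0`. There are `K` and `C` such that for every `A` and every large `N` (EVERY large `N`,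
uniformly in the family): if `𝓕` is ANY set of at least `K log log N` linear irreducible polynomials `a x + b`
with `|a| ≤ A`, `|b| ≤ N` and `a y + b ≥ N / 24` for the real numbers `y` in `[N/16, N/2]` (the leading
coefficients may be negative and the constant terms may be as large as the variable), then

* the mean of the constants `C_F` over the `k + 1` element subsets `F` of `𝓕` is at least `1 - ε`;
* the subsets `F` such that for EVERY subset `J` of `F` there are at least `N / (log N) ^ C` numbers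
  `1 ≤ n ≤ N` at which exactly the members of `J` take prime values carry at least the proportion `δ - ε` of
  the total mass of the constants, where `δ = 1/3` for `k = 1` and `δ = (5/18) ^ k` otherwise.
-/

set_option autoImplicit false

namespace Pool.Agent.Results.MP_51e72e_nt.OneThirdAtEveryScale

open Finset Polynomial

/-- the number of residues mod `p` at which the product of the members of `F` vanishes -/
noncomputable def omega (F : Finset ℤ[X]) (p : ℕ) : ℕ :=
  ((range p).filter (fun n : ℕ => (p : ℤ) ∣ ∏ f ∈ F, f.eval (n : ℤ))).card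

/-- the constant `C_F` -/
noncomputable def CF (F : Finset ℤ[X]) : ℝ :=
  ∏' p : Nat.Primes, (1 - (omega F p : ℝ) / (p : ℕ)) / (1 - 1 / ((p : ℕ) : ℝ)) ^ F.card

/-- the proportion: `1 / 3` for pairs, `(5 / 18) ^ k` for `k + 1` polynomials -/
noncomputable def share (k : ℕ) : ℝ := if k = 1 then 1 / 3 else (5 / 18) ^ k

/-- the conditions on a linear polynomial at the scale `N` -/
def Admissible (A N : ℕ) (f : ℤ[X]) : Prop :=
  f.natDegree = 1 ∧ Irreducible f ∧ |f.coeff 1| ≤ A ∧ |f.coeff 0| ≤ N ∧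
    ∀ y : ℝ, (N : ℝ) / 16 ≤ y → y ≤ N / 2 → (N : ℝ) / 24 ≤ f.coeff 1 * y + f.coeff 0

/-- the number of `1 ≤ n ≤ N` at which the members of `J` take (positive) prime values and the other members
of `F` do not -/
noncomputable def pattern (F J : Finset ℤ[X]) (N : ℕ) : ℕ :=
  {n : ℕ | 1 ≤ n ∧ n ≤ N ∧ ∀ f ∈ F, (0 < f.eval (n : ℤ) ∧ Prime (f.eval (n : ℤ))) ↔ f ∈ J}.ncard

open Classical in
theorem result :
    (∀ F : Finset ℤ[X], (∀ f ∈ F, f.natDegree = 1 ∧ Irreducible f) → (∀ f ∈ F, ∀ g ∈ F, f ≠ -g) →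
      HasProd (fun p : Nat.Primes => (1 - (omega F p : ℝ) / (p : ℕ)) / (1 - 1 / ((p : ℕ) : ℝ)) ^ F.card) (CF F) ∧
      ((∀ p : ℕ, p.Prime → omega F p < p) → 0 < CF F)) ∧
    ∀ k : ℕ, 1 ≤ k → ∀ ε : ℝ, 0 < ε → ∃ (K : ℝ) (C : ℕ), 0 < K ∧ ∀ A : ℕ, ∃ N₀ : ℕ, ∀ N : ℕ, N₀ ≤ N →
      ∀ 𝓕 : Finset ℤ[X], (∀ f ∈ 𝓕, Admissible A N f) → K * Real.log (Real.log N) ≤ 𝓕.card →
      (1 - ε) * (𝓕.card.choose (k + 1)) ≤ ∑ F ∈ 𝓕.powersetCard (k + 1), CF F ∧
      (share k - ε) * ∑ F ∈ 𝓕.powersetCard (k + 1), CF F ≤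
        ∑ F ∈ (𝓕.powersetCard (k + 1)).filter
          (fun F => ∀ J ⊆ F, (N : ℝ) / Real.log N ^ C ≤ pattern F J N), CF F :=
  ⟨fun F hF hI => ⟨Pool.Agent.H37EF.CF_hasProd F hF hI, fun h => Pool.Agent.H37EF.CF_pos F hF hI h⟩,
    fun k hk ε hε => Pool.Agent.H37EF.main_poly
      (fun k ε hε => Pool.Agent.Y827.HD.herU k ε hε) k hk ε hε⟩

end Pool.Agent.Results.MP_51e72e_nt.OneThirdAtEveryScale
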