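import Mathlib
import Pool.Agent.H11P.Law
import Pool.Agent.H11P.SWc

/-! The Poisson law for the prime values of random systems of polynomials. -/

set_option autoImplicit false

namespace Pool.Agent.Results.MP_51e72e_nt.PoissonLaw

open Pool.Agent.H11P.Law

theorem result (k d A : ℕ) (hk : 1 ≤ k) (Λ ε : ℝ) (hε : 0 < ε) :
    ∃ z₀ : ℕ, ∀ z ≥ z₀, ∃ H₀ : ℕ, ∀ H ≥ H₀,
      ∀ (P : Fin k → Polynomial ℤ) (α : Fin k → Fin (d + 1) → ℤ) (J L : ℕ) (D : Finset ℕ),
      D ⊆ Finset.Ioc J (J + L) → (L : ℝ) ≤ Λ * Real.log H ^ k → ((J + L : ℕ) : ℝ) ≤ Real.log H ^ A →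
      (∀ i, ∀ n ∈ D, |(((P i).eval (n : ℤ) : ℤ) : ℝ)| ≤ H * Real.log H ^ A) →
      (∀ r ≤ d + 1, |(∑ a ∈ box H z α, ((hits P D a).choose r : ℝ)) / (box H z α).card -
        mean P D z H α ^ r / r.factorial| ≤ ε) ∧
      (∀ j ≤ d + 1, |(((box H z α).filter fun a => hits P D a = j).card : ℝ) / (box H z α).card -
        Real.exp (-mean P D z H α) * mean P D z H α ^ j / j.factorial| ≤
          mean P D z H α ^ (d + 1) / (j.factorial * (d + 1 - j).factorial) + ε) ∧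
      (D = Finset.Ioc J (J + L) →
        |mean P D z H α - bhConst P z α * L / Real.log H ^ k| ≤ ε) :=
  law Pool.Agent.H11P.swU k d A hk Λ ε hε

end Pool.Agent.Results.MP_51e72e_nt.PoissonLaw
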